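import Mathlib
import Pool.Agent.Y113.MT.HStm
import Pool.Agent.Y412.MT.Lie1

set_option autoImplicit false

/-! Project MT (helper113), second part, job IDL. -/

open Matrix

namespace Pool.Agent.Y780.MT

open Pool.Agent.Y113.MT Pool.Agent.Y412.MT

variable {F : Type} [Field F] {m : ℕ}

theorem T_sp (v w : Fin (2 * m) → F) : T v w * SS F (2 * m) + SS F (2 * m) * (T v w)ᵀ = 0 := by
  unfold T
  rw [Matrix.mul_assoc, SS_sq, Matrix.transpose_mul, SS_tr, Matrix.transpose_add,
    Matrix.transpose_vecMulVec, Matrix.transpose_vecMulVec, Matrix.neg_mul, Matrix.mul_neg, Matrix.mul_neg,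
    ← Matrix.mul_assoc, SS_sq, Matrix.mul_one, Matrix.neg_mul, Matrix.one_mul, neg_neg, add_comm (vecMulVec w v)]
  abel

/-- the elements `T(e_a,e_b)` span the symplectic Lie algebra -/
theorem span [CharZero F] {L : Submodule F (Matrix (Fin (2 * m)) (Fin (2 * m)) F)}
    (hall : ∀ a b : Fin (2 * m), (TT a b : Matrix (Fin (2 * m)) (Fin (2 * m)) F) ∈ L)
    {X : Matrix (Fin (2 * m)) (Fin (2 * m)) F} (hX : X * SS F (2 * m) + SS F (2 * m) * Xᵀ = 0) : X ∈ L := by
  have h1 : X * SS F (2 * m) = -(SS F (2 * m) * Xᵀ) := eq_neg_of_add_eq_zero_left hX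
  have hsym : ∀ i j, (X * SS F (2 * m)) i j = (X * SS F (2 * m)) j i := by
    intro i j
    have h2 : (X * SS F (2 * m))ᵀ = X * SS F (2 * m) := by
      rw [Matrix.transpose_mul, SS_tr, h1, Matrix.neg_mul]
    rw [← Matrix.transpose_apply (X * SS F (2 * m)) i j, h2]
  have h3 : X = -((X * SS F (2 * m)) * SS F (2 * m)) := by
    rw [Matrix.mul_assoc, SS_sq, Matrix.mul_neg, Matrix.mul_one, neg_neg]
  have h4 : X = ∑ i, ∑ j, (-(X * SS F (2 * m)) i j / 2) • TT i j := by
    ext x y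
    rw [Matrix.sum_apply]
    simp only [Matrix.sum_apply, Matrix.smul_apply, TT_apply, smul_eq_mul, mul_add,
      Finset.sum_add_distrib]
    have e1 : ∑ i : Fin (2 * m), ∑ j : Fin (2 * m), -(X * SS F (2 * m)) i j / 2 *
        (if x = i then SS F (2 * m) j y else 0) =
        ∑ j, -(X * SS F (2 * m)) x j / 2 * SS F (2 * m) j y := by
      rw [Finset.sum_eq_single x]
      · simp
      · intro i _ hi
        refine Finset.sum_eq_zero fun j _ => ?_
        rw [if_neg (Ne.symm hi), mul_zero]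
      · intro h
        exact absurd (Finset.mem_univ _) h
    have e2 : ∑ i : Fin (2 * m), ∑ j : Fin (2 * m), -(X * SS F (2 * m)) i j / 2 *
        (if x = j then SS F (2 * m) i y else 0) =
        ∑ j, -(X * SS F (2 * m)) x j / 2 * SS F (2 * m) j y := by
      refine Finset.sum_congr rfl fun i _ => ?_
      rw [Finset.sum_eq_single x]
      · rw [if_pos rfl, hsym]
      · intro j _ hj
        rw [if_neg (Ne.symm hj), mul_zero]
      · intro h
        exact absurd (Finset.mem_univ _) h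
    rw [e1, e2, ← Finset.sum_add_distrib]
    conv_lhs => rw [h3]
    rw [Matrix.neg_apply, Matrix.mul_apply, ← Finset.sum_neg_distrib]
    refine Finset.sum_congr rfl fun j _ => ?_
    ring
  rw [h4]
  exact L.sum_mem fun i _ => L.sum_mem fun j _ => L.smul_mem _ (hall i j)

theorem e0 [CharZero F] (o k : Fin (2 * m)) :
    ∃ c : F, c ≠ 0 ∧ (TT k (Fin.rev o) : Matrix (Fin (2 * m)) (Fin (2 * m)) F) *ᵥ e o = c • e k := by
  have h0 : SS F (2 * m) (Fin.rev o) o ≠ 0 := by
    have := SS_rev_ne (F := F) (Fin.rev o)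
    rwa [Fin.rev_rev] at this
  by_cases h : k = Fin.rev o
  · refine ⟨2 * SS F (2 * m) (Fin.rev o) o, mul_ne_zero two_ne_zero h0, ?_⟩
    rw [TT_e, h]
    module
  · refine ⟨SS F (2 * m) (Fin.rev o) o, h0, ?_⟩
    rw [TT_e, SS_of_ne (i := k) (j := o), zero_smul, add_zero]
    intro h2
    apply h
    rw [h2, Fin.rev_rev]

theorem idl : S_IDL := by
  intro F _ _ m hm L hbr hE X hX
  let o : Fin (2 * m) := ⟨0, by omega⟩
  have h0 : (TT o o : Matrix (Fin (2 * m)) (Fin (2 * m)) F) ∈ L := by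
    have h1 : (TT o o : Matrix (Fin (2 * m)) (Fin (2 * m)) F) = (2 : F) • EE F (2 * m) := by
      ext x y
      rw [TT_apply, Matrix.smul_apply]
      unfold EE
      rw [Matrix.of_apply, SS_apply]
      by_cases hx : x = o
      · subst hx
        by_cases hy : (y : ℕ) + 1 = 2 * m
        · simp [hy, o]
          ring
        · simp [hy, o]
      · have hx' : (x : ℕ) ≠ 0 := fun h => hx (Fin.ext h)
        simp [hx, hx']
    rw [h1]
    exact L.smul_mem _ hE
  have ha : ∀ j, (TT j o : Matrix (Fin (2 * m)) (Fin (2 * m)) F) ∈ L := by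
    intro j
    obtain ⟨c, hc, h1⟩ := e0 (F := F) o j
    have h2 := hbr (TT j (Fin.rev o)) (T_sp _ _) _ h0
    have h3 : TT j (Fin.rev o) * TT o o - TT o o * TT j (Fin.rev o) =
        T ((TT j (Fin.rev o) : Matrix (Fin (2 * m)) (Fin (2 * m)) F) *ᵥ e o) (e o) +
          T (e o) ((TT j (Fin.rev o) : Matrix (Fin (2 * m)) (Fin (2 * m)) F) *ᵥ e o) := bracket (T_sp _ _) _ _
    rw [h3, h1, T_smul_left, T_smul_right, T_comm (e o), ← smul_add, ← two_smul F] at h2
    exact smul_mem' two_ne_zero (smul_mem' hc h2)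
  have hb : ∀ j k, (TT j k : Matrix (Fin (2 * m)) (Fin (2 * m)) F) ∈ L := by
    intro j k
    obtain ⟨c, hc, h1⟩ := e0 (F := F) o k
    have h2 := hbr (TT k (Fin.rev o)) (T_sp _ _) _ (ha j)
    have h3 : TT k (Fin.rev o) * TT j o - TT j o * TT k (Fin.rev o) =
        T ((TT k (Fin.rev o) : Matrix (Fin (2 * m)) (Fin (2 * m)) F) *ᵥ e j) (e o) +
          T (e j) ((TT k (Fin.rev o) : Matrix (Fin (2 * m)) (Fin (2 * m)) F) *ᵥ e o) := bracket (T_sp _ _) _ _
    rw [h3, h1, T_smul_right] at h2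
    have h4 : T ((TT k (Fin.rev o) : Matrix (Fin (2 * m)) (Fin (2 * m)) F) *ᵥ e j) (e o) ∈ L := by
      rw [TT_e, T_add_left, T_smul_left, T_smul_left]
      exact L.add_mem (L.smul_mem _ (ha _)) (L.smul_mem _ (ha _))
    exact smul_mem' hc ((L.add_mem_iff_right h4).1 h2)
  exact span hb hX

end Pool.Agent.Y780.MT
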